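import Pool.Agent.H41.Fire.Far.Split
import Pool.Agent.H41.Fire.Strategy

/-! A piece of an annulus can be saved. -/

namespace Pool.Agent.H41.Fire

open Classical Equiv.Perm

set_option linter.unusedSectionVars false

universe u

variable {V : Type u} [Fintype V] {G : SimpleGraph V}

namespace Ctx

variable (C : Ctx G)

theorem pos_iff {i j : ℕ} {x : V} (hx : x ∈ C.nodes) (hi : ¬ C.F.Desc x (C.D i).fst)
    (hj : ¬ C.F.Desc x (C.D j).fst) {k : ℕ} (hk : k < C.N) (hd : C.F.Desc x (C.D k).fst) :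
    (i ≤ k ∧ k < j) ↔ (i ≤ C.e x ∧ C.e x < j) := by
  rw [C.mem_nodes] at hx
  have h3 := (C.block hx.1 hx.2 hk).1 hd
  have h5 := C.e_lt hx.1 hx.2
  have h4 : i < C.N → ¬ (C.b x < i ∧ i ≤ C.e x) := fun h h' => hi ((C.block hx.1 hx.2 h).2 h')
  have h6 : j < C.N → ¬ (C.b x < j ∧ j ≤ C.e x) := fun h h' => hj ((C.block hx.1 hx.2 h).2 h')
  constructor
  · rintro ⟨h8, h9⟩
    have h10 := h4 (by omega)
    refine ⟨by omega, ?_⟩
    by_contra h11
    exact h6 (by omega) ⟨by omega, by omega⟩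
  · rintro ⟨h8, h9⟩
    have h10 := h4 (by omega)
    refine ⟨?_, ?_⟩
    · by_contra h11
      exact h10 ⟨by omega, by omega⟩
    · by_contra h11
      exact h6 (by omega) ⟨by omega, by omega⟩

theorem same_side {i j : ℕ} (hcl : C.Closed i j) {a b : V} (han : a ∈ C.nodes)
    (hbn : b ∈ C.nodes) (hab : G.Adj a b) (hai : ¬ C.F.Desc a (C.D i).fst)
    (haj : ¬ C.F.Desc a (C.D j).fst) (hbi : ¬ C.F.Desc b (C.D i).fst)
    (hbj : ¬ C.F.Desc b (C.D j).fst) (haP : i ≤ C.e a ∧ C.e a < j) :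
    i ≤ C.e b ∧ C.e b < j := by
  have han' := C.mem_nodes.1 han
  have hbn' := C.mem_nodes.1 hbn
  have hea : (C.D (C.e a)).fst = a := by rw [C.D_e han'.1 han'.2, C.up_fst han'.2]
  have heb : (C.D (C.e b)).fst = b := by rw [C.D_e hbn'.1 hbn'.2, C.up_fst hbn'.2]
  set d : G.Dart := ⟨(a, b), hab⟩ with hd
  by_cases hT : C.F.IsTree d
  · rcases hT with hT | hT
    · have hpa : C.F.par a = b := hT.2
      have h3 : C.F.Desc b a := by
        by_cases hba : a = b
        · exact absurd hba hab.ne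
        · rw [← C.F.desc_par han'.2 hba, hpa]
          exact C.F.desc_self b
      exact (C.pos_iff hbn hbi hbj (C.e_lt han'.1 han'.2) (by rw [hea]; exact h3)).1 haP
    · have hpb : C.F.par b = a := hT.2
      have h3 : C.F.Desc a b := by
        by_cases hba : b = a
        · exact absurd hba hab.ne'
        · rw [← C.F.desc_par hbn'.2 hba, hpb]
          exact C.F.desc_self a
      exact (C.pos_iff han hai haj (C.e_lt hbn'.1 hbn'.2) (by rw [heb]; exact h3)).2 haP
  · have hdf : C.In d.fst := han'.1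
    have hdf' : C.In d.symm.fst := hbn'.1
    have h3 : i ≤ C.idx d ∧ C.idx d < j := by
      refine (C.pos_iff han hai haj (C.idx_lt hdf) ?_).2 haP
      rw [C.D_idx hdf]
      exact C.F.desc_self a
    have h4 := hcl d hdf hT h3
    refine (C.pos_iff hbn hbi hbj (C.idx_lt hdf') ?_).1 h4
    rw [C.D_idx hdf']
    exact C.F.desc_self b

/-- the ancestors of `x` with level between `R` and `R'` -/
noncomputable def ancR (R R' : ℕ) (x : V) : Finset V :=
  ((Finset.Icc R R').filter fun m => m ≤ C.F.lev x).image (C.F.anc x)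

theorem mem_ancR {R R' : ℕ} {x y : V} :
    y ∈ C.ancR R R' x ↔ C.F.Desc y x ∧ R ≤ C.F.lev y ∧ C.F.lev y ≤ R' := by
  unfold ancR
  rw [Finset.mem_image]
  constructor
  · rintro ⟨m, hm, h⟩
    rw [Finset.mem_filter, Finset.mem_Icc] at hm
    rw [← h, C.F.lev_anc hm.2]
    exact ⟨C.F.desc_anc hm.2, hm.1⟩
  · rintro ⟨h1, h2, h3⟩
    refine ⟨C.F.lev y, ?_, h1.2⟩
    rw [Finset.mem_filter, Finset.mem_Icc]
    exact ⟨⟨h2, h3⟩, h1.1⟩

theorem card_ancR (R R' : ℕ) (x : V) : (C.ancR R R' x).card ≤ R' + 1 - R := by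
  refine Finset.card_image_le.trans ((Finset.card_filter_le _ _).trans ?_)
  rw [Nat.card_Icc]

/-- protecting a small set far away -/
theorem far_save {R : ℕ} (hR : 1 ≤ R) {X Z : Finset V} (hZX : Z ⊆ X) (hZ : Z.card ≤ R)
    (hXl : ∀ x ∈ X, C.In x ∧ R ≤ C.F.lev x)
    (hN : ∀ x ∈ X, x ∉ Z → ∀ y, G.Adj x y → y ∈ X) : X.card ≤ sn G C.v := by
  apply CanSave.card_le
  have hb := barrier (G := G) (v := C.v) (E := ((X : Set V))ᶜ) (τ := fun a => G.dist C.v a)
      (q := fun t => if t = 0 then none else Z.toList[t - 1]?) ?_ ?_ ?_ ?_ ?_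
  · rwa [compl_compl] at hb
  · intro h
    have := (hXl _ (by simpa using h)).2
    rw [C.lev_v] at this
    omega
  · simp
  · intro a _ b _ hab
    by_cases hra : G.Reachable C.v a
    · exact dist_le_succ hra hab
    · have : ¬ G.Reachable C.v b := fun h => hra (h.trans hab.symm.reachable)
      rw [SimpleGraph.dist_eq_zero_of_not_reachable this]
      exact Nat.zero_le _
  · intro t w h hw
    split_ifs at h with h1
    have h2 : w ∈ Z := Finset.mem_toList.1 (List.mem_of_getElem? h)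
    exact hw (by simpa using hZX h2)
  · intro a ha b hb hab
    have hbX : b ∈ X := by
      by_contra h
      exact hb (by simpa using h)
    have haX : a ∉ X := by
      intro h
      exact ha (by simpa using h)
    have hbZ : b ∈ Z := by
      by_contra h
      exact haX (hN b hbX h a hab.symm)
    obtain ⟨i, hi⟩ := List.mem_iff_getElem?.1 (Finset.mem_toList.2 hbZ)
    have hi' : i < Z.card := by
      have := (List.getElem?_eq_some_iff.1 hi).1
      rwa [Finset.length_toList] at this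
    obtain ⟨hbIn, hbl⟩ := hXl b hbX
    have haIn : C.In a := C.in_adj hbIn hab.symm
    have h3 : G.dist C.v b ≤ G.dist C.v a + 1 := dist_le_succ haIn hab
    rw [C.hlev b hbIn] at hbl
    have hbl' : R ≤ G.dist C.v b := hbl
    refine ⟨i + 1, by omega, by omega, ?_⟩
    rw [if_neg (by omega), Nat.add_sub_cancel]
    exact hi

theorem piece_save {R R' θ : ℕ} (hR : 1 ≤ R) (hRR : R ≤ R') {i j i' j' : ℕ} (hP : C.Pair i j i' j')
    (hc : C.cnt (Finset.univ.filter fun x => C.F.lev x = R ∨ C.F.lev x = R') i i' +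
      C.cnt (Finset.univ.filter fun x => C.F.lev x = R ∨ C.F.lev x = R') j' j ≤ θ)
    (hθ : θ + 4 * (R' + 1 - R) ≤ R) :
    C.cnt (Finset.univ.filter fun x => R < C.F.lev x ∧ C.F.lev x < R') i i' +
      C.cnt (Finset.univ.filter fun x => R < C.F.lev x ∧ C.F.lev x < R') j' j ≤ sn G C.v := by
  obtain ⟨p1, p2, p3, p4, p5, p6⟩ := hP
  set P : ℕ → Prop := fun k => (i ≤ k ∧ k < j) ∧ ¬ (i' ≤ k ∧ k < j') with hPdef
  have hcnt : ∀ U : Finset V, C.cnt U i i' + C.cnt U j' j = C.wtU U P := by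
    intro U
    unfold cnt wtU
    rw [← Finset.card_union_of_disjoint]
    · congr 1
      ext x
      simp only [Finset.mem_union, Finset.mem_inter, mem_sel, hPdef]
      constructor
      · rintro (⟨⟨h3, h4, h5⟩, h6⟩ | ⟨⟨h3, h4, h5⟩, h6⟩)
        · exact ⟨⟨h3, by omega⟩, h6⟩
        · exact ⟨⟨h3, by omega⟩, h6⟩
      · rintro ⟨⟨h3, h4⟩, h6⟩
        rcases Nat.lt_or_ge (C.e x) i' with h7 | h7
        · exact Or.inl ⟨⟨h3, h4.1.1, h7⟩, h6⟩
        · refine Or.inr ⟨⟨h3, ?_, h4.1.2⟩, h6⟩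
          by_contra h8
          exact h4.2 ⟨h7, by omega⟩
    · rw [Finset.disjoint_left]
      intro x hx hx'
      rw [Finset.mem_inter, mem_sel] at hx hx'
      omega
  rw [hcnt] at hc ⊢
  set A4 : Finset V := (C.ancR R R' (C.D i).fst ∪ C.ancR R R' (C.D j).fst) ∪
    (C.ancR R R' (C.D i').fst ∪ C.ancR R R' (C.D j').fst) with hA4
  have hA4c : A4.card ≤ 4 * (R' + 1 - R) := by
    have h1 := Finset.card_union_le (C.ancR R R' (C.D i).fst ∪ C.ancR R R' (C.D j).fst)
      (C.ancR R R' (C.D i').fst ∪ C.ancR R R' (C.D j').fst)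
    have h2 := Finset.card_union_le (C.ancR R R' (C.D i).fst) (C.ancR R R' (C.D j).fst)
    have h3 := Finset.card_union_le (C.ancR R R' (C.D i').fst) (C.ancR R R' (C.D j').fst)
    have h4 := C.card_ancR R R' (C.D i).fst
    have h5 := C.card_ancR R R' (C.D j).fst
    have h6 := C.card_ancR R R' (C.D i').fst
    have h7 := C.card_ancR R R' (C.D j').fst
    rw [← hA4] at h1
    omega
  have hmA : ∀ y, y ∉ A4 → R ≤ C.F.lev y → C.F.lev y ≤ R' →
      ¬ C.F.Desc y (C.D i).fst ∧ ¬ C.F.Desc y (C.D j).fst ∧ ¬ C.F.Desc y (C.D i').fst ∧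
        ¬ C.F.Desc y (C.D j').fst := by
    intro y hy h1 h2
    rw [hA4, Finset.mem_union, Finset.mem_union, Finset.mem_union, C.mem_ancR, C.mem_ancR,
      C.mem_ancR, C.mem_ancR] at hy
    refine ⟨fun h => hy ?_, fun h => hy ?_, fun h => hy ?_, fun h => hy ?_⟩
    · exact Or.inl (Or.inl ⟨h, h1, h2⟩)
    · exact Or.inl (Or.inr ⟨h, h1, h2⟩)
    · exact Or.inr (Or.inl ⟨h, h1, h2⟩)
    · exact Or.inr (Or.inr ⟨h, h1, h2⟩)
  have hA4l : ∀ y ∈ A4, R ≤ C.F.lev y ∧ C.F.lev y ≤ R' := by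
    intro y hy
    rw [hA4, Finset.mem_union, Finset.mem_union, Finset.mem_union, C.mem_ancR, C.mem_ancR,
      C.mem_ancR, C.mem_ancR] at hy
    rcases hy with (h | h) | (h | h)
    · exact h.2
    · exact h.2
    · exact h.2
    · exact h.2
  have hA4in : ∀ y ∈ A4, C.In y := by
    intro y hy
    rw [hA4, Finset.mem_union, Finset.mem_union, Finset.mem_union, C.mem_ancR, C.mem_ancR,
      C.mem_ancR, C.mem_ancR] at hy
    have key : ∀ k, C.F.Desc y (C.D k).fst → C.In y := by
      intro k hk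
      have h1 := C.F.reachable_anc (C.D k).fst (C.F.lev y)
      rw [hk.2] at h1
      exact SimpleGraph.Reachable.trans (C.in_D k) h1
    rcases hy with (h | h) | (h | h)
    · exact key _ h.1
    · exact key _ h.1
    · exact key _ h.1
    · exact key _ h.1
  set U := Finset.univ.filter fun x => C.F.lev x = R ∨ C.F.lev x = R' with hU
  set W := Finset.univ.filter fun x => R < C.F.lev x ∧ C.F.lev x < R' with hW
  set Z : Finset V := (C.sel P ∩ U) ∪ A4 with hZ
  set X : Finset V := (C.sel P ∩ W) ∪ Z with hX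
  have hZc : Z.card ≤ R := by
    have h1 := Finset.card_union_le (C.sel P ∩ U) A4
    have h2 : (C.sel P ∩ U).card ≤ θ := hc
    rw [← hZ] at h1
    omega
  have hXW : (C.sel P ∩ W).card ≤ X.card := Finset.card_le_card Finset.subset_union_left
  refine le_trans hXW (C.far_save hR (Z := Z) Finset.subset_union_right hZc ?_ ?_)
  · intro x hx
    rw [hX, Finset.mem_union, hZ, Finset.mem_union, Finset.mem_inter, Finset.mem_inter, mem_sel,
      C.mem_nodes, hU, hW, Finset.mem_filter, Finset.mem_filter] at hx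
    rcases hx with h | h | h
    · exact ⟨h.1.1.1, h.2.2.1.le⟩
    · refine ⟨h.1.1.1, ?_⟩
      rcases h.2.2 with h1 | h1
      · omega
      · omega
    · exact ⟨hA4in x h, (hA4l x h).1⟩
  · intro x hx hxZ y hxy
    rw [hX, Finset.mem_union] at hx
    have hxW := hx.resolve_right hxZ
    rw [Finset.mem_inter, mem_sel, hW, Finset.mem_filter] at hxW
    obtain ⟨⟨hxn, hxP⟩, -, hx1, hx2⟩ := hxW
    have hxA : x ∉ A4 := fun h => hxZ (Finset.mem_union_right _ h)
    have hxIn := (C.mem_nodes.1 hxn).1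
    have hyIn : C.In y := C.in_adj hxIn hxy
    have hl1 : C.F.lev y ≤ C.F.lev x + 1 := by
      rw [C.hlev x hxIn, C.hlev y hyIn]
      exact dist_le_succ hxIn hxy
    have hl2 : C.F.lev x ≤ C.F.lev y + 1 := by
      rw [C.hlev x hxIn, C.hlev y hyIn]
      exact dist_le_succ hyIn hxy.symm
    have hyn : y ∈ C.nodes := C.mem_nodes.2 ⟨hyIn, by omega⟩
    rw [hX, Finset.mem_union]
    by_cases hyA : y ∈ A4
    · exact Or.inr (Finset.mem_union_right _ hyA)
    · obtain ⟨a1, a2, a3, a4⟩ := hmA x hxA (by omega) (by omega)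
      obtain ⟨b1, b2, b3, b4⟩ := hmA y hyA (by omega) (by omega)
      have hyP : P (C.e y) := by
        refine ⟨C.same_side p5 hxn hyn hxy a1 a2 b1 b2 hxP.1, fun h => hxP.2 ?_⟩
        exact C.same_side p6 hyn hxn hxy.symm b3 b4 a3 a4 h
      have hys : y ∈ C.sel P := C.mem_sel.2 ⟨hyn, hyP⟩
      by_cases hyl : C.F.lev y = R ∨ C.F.lev y = R'
      · right
        rw [hZ, Finset.mem_union, Finset.mem_inter, hU, Finset.mem_filter]
        exact Or.inl ⟨hys, Finset.mem_univ _, hyl⟩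
      · left
        rw [Finset.mem_inter, hW, Finset.mem_filter]
        exact ⟨hys, Finset.mem_univ _, by omega, by omega⟩

end Ctx

end Pool.Agent.H41.Fire
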