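import Pool.Agent.H41.Fire.Far.Scale
import Pool.Agent.H41.Fire.Count

/-! Many vertices at distance at least `r` imply many saved vertices. -/

namespace Pool.Agent.H41.Fire

open Classical

set_option linter.unusedSectionVars false

universe u

variable {V : Type u} [Fintype V] {G : SimpleGraph V}

/-- number of vertices at distance at least `r` (or infinite distance) from `v` -/
noncomputable def farCount (G : SimpleGraph V) (v : V) (r : ℕ) : ℕ :=
  Nat.card {w : V // ∀ p : G.Walk v w, r ≤ p.length}

theorem farCount_eq (v : V) (r : ℕ) :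
    farCount G v r = (Finset.univ.filter fun w => ∀ p : G.Walk v w, r ≤ p.length).card := by
  unfold farCount
  rw [Nat.card_eq_fintype_card, Fintype.card_subtype]

theorem far_main (hG : IsPlanar G) (v : V) (r : ℕ) (hr : r ^ 2 ≤ Fintype.card V) :
    r ^ 2 * farCount G v r ≤ 1000000 * (Fintype.card V * sn G v) := by
  rcases Nat.eq_zero_or_pos r with h0 | hr1
  · rw [h0]; simp
  rw [farCount_eq]
  have hself : v ∉ Finset.univ.filter fun w => ∀ p : G.Walk v w, r ≤ p.length := by
    rw [Finset.mem_filter]
    rintro ⟨-, h⟩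
    have := h SimpleGraph.Walk.nil
    rw [SimpleGraph.Walk.length_nil] at this
    omega
  by_cases hv : ∃ w, G.Adj v w
  · obtain ⟨R, hR⟩ := hG
    obtain ⟨w, hw⟩ := hv
    obtain ⟨F, hF1, -⟩ := exists_forest G v (fun _ => 0)
    let C : Ctx G := {
      R := R
      F := F
      d0 := ⟨(v, w), hw⟩
      nc := fun c d hc hd hcd => F.noncross R hR hc hd hcd
      hlev := hF1 }
    have hn2 : 2 ≤ Fintype.card V := by
      rw [Nat.succ_le_iff, Fintype.one_lt_card_iff]
      exact ⟨v, w, hw.ne⟩
    have h1 := C.all_scales hr1 (by rw [← pow_two]; exact hr) hn2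
    have h2 := C.out_le_sn
    have h3 : (Finset.univ.filter fun w => ∀ p : G.Walk v w, r ≤ p.length).card ≤
        (Finset.univ.filter fun w => ¬ C.In w).card + (C.far r).card := by
      refine le_trans (Finset.card_le_card ?_) (Finset.card_union_le _ _)
      intro x hx
      rw [Finset.mem_filter] at hx
      rw [Finset.mem_union, Finset.mem_filter, C.mem_far, C.mem_nodes]
      by_cases hIn : C.In x
      · right
        have h4 : r ≤ C.F.lev x := by
          rw [show C.F.lev x = G.dist v x from hF1 x hIn]
          obtain ⟨p, hp⟩ := SimpleGraph.Reachable.exists_walk_length_eq_dist hIn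
          have h5 : r ≤ p.length := hx.2 p
          rw [hp] at h5
          exact h5
        exact ⟨⟨hIn, by omega⟩, h4⟩
      · exact Or.inl ⟨Finset.mem_univ _, hIn⟩
    have hCv : C.v = v := rfl
    rw [hCv] at h1 h2
    set n := Fintype.card V with hn
    set s := sn G v with hs
    calc r ^ 2 * (Finset.univ.filter fun w => ∀ p : G.Walk v w, r ≤ p.length).card
        ≤ r ^ 2 * ((Finset.univ.filter fun w => ¬ C.In w).card + (C.far r).card) :=
          Nat.mul_le_mul_left _ h3
      _ = r ^ 2 * (Finset.univ.filter fun w => ¬ C.In w).card + r * r * (C.far r).card := by ring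
      _ ≤ n * s + 999999 * (n * s) := Nat.add_le_add (Nat.mul_le_mul hr h2) h1
      _ = 1000000 * (n * s) := by ring
  · -- isolated vertex
    have hb := barrier (G := G) (v := v) (E := ({v} : Set V)) (τ := fun a => G.dist v a)
      (q := fun _ => none) rfl (by simp) (by
        intro a ha b hb hab
        exfalso
        rw [Set.mem_singleton_iff] at ha hb
        rw [ha, hb] at hab
        exact hab.ne rfl) (by intro t w h; simp at h) (by
        intro a ha b _ hab
        exfalso
        rw [Set.mem_singleton_iff] at ha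
        rw [ha] at hab
        exact hv ⟨b, hab⟩)
    have hb' : CanSave G v (((Finset.univ.erase v : Finset V)) : Set V) := by
      refine hb.mono ?_
      intro w hw
      simp only [Finset.coe_erase, Finset.coe_univ, Set.mem_sdiff, Set.mem_univ, true_and] at hw
      exact hw
    have h1 := hb'.card_le
    have h2 : (Finset.univ.filter fun w => ∀ p : G.Walk v w, r ≤ p.length).card ≤
        (Finset.univ.erase v).card := by
      apply Finset.card_le_card
      intro x hx
      rw [Finset.mem_erase]
      refine ⟨?_, Finset.mem_univ _⟩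
      rintro rfl
      exact hself hx
    calc r ^ 2 * (Finset.univ.filter fun w => ∀ p : G.Walk v w, r ≤ p.length).card
        ≤ Fintype.card V * sn G v := Nat.mul_le_mul hr (h2.trans h1)
      _ ≤ 1000000 * (Fintype.card V * sn G v) := Nat.le_mul_of_pos_left _ (by norm_num)

/-- The average version. -/
theorem far_rate (hG : IsPlanar G) (r : ℕ) (hr : r ^ 2 ≤ Fintype.card V) :
    ((r : ℝ) ^ 2 / Fintype.card V) *
      ((∑ v, (farCount G v r : ℝ)) / (Fintype.card V : ℝ) ^ 2) ≤ 1000000 * rho G := by
  rcases Nat.eq_zero_or_pos (Fintype.card V) with h0 | hn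
  · rw [rho, h0]
    simp
  have hn' : (0 : ℝ) < Fintype.card V := by exact_mod_cast hn
  have h1 : ∀ v : V, (r : ℝ) ^ 2 * (farCount G v r : ℝ) ≤
      1000000 * ((Fintype.card V : ℝ) * (sn G v : ℝ)) := by
    intro v
    exact_mod_cast far_main hG v r hr
  have h2 : (r : ℝ) ^ 2 * ∑ v, (farCount G v r : ℝ) ≤
      1000000 * ((Fintype.card V : ℝ) * ∑ v, (sn G v : ℝ)) := by
    rw [Finset.mul_sum, Finset.mul_sum, Finset.mul_sum]
    exact Finset.sum_le_sum fun v _ => h1 v
  rw [rho, div_mul_div_comm, mul_div_assoc', div_le_div_iff₀ (by positivity) (by positivity)]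
  have h3 : (0 : ℝ) < (Fintype.card V : ℝ) ^ 2 := by positivity
  calc (r : ℝ) ^ 2 * (∑ v, (farCount G v r : ℝ)) * (Fintype.card V : ℝ) ^ 2
      ≤ (1000000 * ((Fintype.card V : ℝ) * ∑ v, (sn G v : ℝ))) * (Fintype.card V : ℝ) ^ 2 :=
        mul_le_mul_of_nonneg_right h2 h3.le
    _ = 1000000 * (∑ v, (sn G v : ℝ)) * ((Fintype.card V : ℝ) * (Fintype.card V : ℝ) ^ 2) := by
        ring

end Pool.Agent.H41.Fire
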