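import Pool.Agent.H41.Fire.Far.Piece

/-! Choice of the scale; the main inequality. -/

namespace Pool.Agent.H41.Fire

open Classical Equiv.Perm

set_option linter.unusedSectionVars false

universe u

variable {V : Type u} [Fintype V] {G : SimpleGraph V}

namespace Ctx

variable (C : Ctx G)

/-- nodes at distance `k` -/
noncomputable def sph (k : ℕ) : Finset V := C.nodes.filter fun x => C.F.lev x = k

/-- nodes at distance at least `k` -/
noncomputable def far (k : ℕ) : Finset V := C.nodes.filter fun x => k ≤ C.F.lev x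

theorem mem_sph {k : ℕ} {x : V} : x ∈ C.sph k ↔ x ∈ C.nodes ∧ C.F.lev x = k := by
  unfold sph; exact Finset.mem_filter

theorem mem_far {k : ℕ} {x : V} : x ∈ C.far k ↔ x ∈ C.nodes ∧ k ≤ C.F.lev x := by
  unfold far; exact Finset.mem_filter

theorem far_anti {k l : ℕ} (h : k ≤ l) : (C.far l).card ≤ (C.far k).card := by
  apply Finset.card_le_card
  intro x hx
  rw [mem_far] at hx ⊢
  exact ⟨hx.1, h.trans hx.2⟩

theorem cut_sphere {R : ℕ} (hR : 1 ≤ R) (h : (C.sph R).card ≤ R) : (C.far R).card ≤ sn G C.v := by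
  apply C.far_save hR (Z := C.sph R) _ h
  · intro x hx
    rw [mem_far, C.mem_nodes] at hx
    exact ⟨hx.1.1, hx.2⟩
  · intro x hx hxZ y hxy
    rw [mem_far, C.mem_nodes] at hx
    rw [mem_sph, C.mem_nodes] at hxZ
    have hyIn : C.In y := C.in_adj hx.1.1 hxy
    have hl2 : C.F.lev x ≤ C.F.lev y + 1 := by
      rw [C.hlev x hx.1.1, C.hlev y hyIn]
      exact dist_le_succ hyIn hxy.symm
    have hne : C.F.lev x ≠ R := fun h => hxZ ⟨hx.1, h⟩
    rw [mem_far, C.mem_nodes]
    exact ⟨⟨hyIn, by omega⟩, by omega⟩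
  · intro x hx
    rw [mem_sph] at hx
    rw [mem_far]
    exact ⟨hx.1, hx.2.ge⟩

theorem nodes_card_le : C.nodes.card ≤ Fintype.card V := Finset.card_le_univ _

/-- one of `h` consecutive spheres is small -/
theorem exists_sphere {h a : ℕ} (hh : 1 ≤ h) (ha : h ≤ a) :
    ∃ R, a - h ≤ R ∧ R < a ∧ h * (C.sph R).card ≤ Fintype.card V := by
  by_contra hcon
  push Not at hcon
  have h1 : ∑ R ∈ Finset.Ico (a - h) a, (C.sph R).card ≤ Fintype.card V := by
    rw [← Finset.card_biUnion]
    · exact Finset.card_le_univ _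
    · intro R _ R' _ hne
      rw [Function.onFun, Finset.disjoint_left]
      intro x hx hx'
      rw [mem_sph] at hx hx'
      exact hne (hx.2.symm.trans hx'.2)
  have h2 : ∑ _R ∈ Finset.Ico (a - h) a, Fintype.card V <
      ∑ R ∈ Finset.Ico (a - h) a, h * (C.sph R).card := by
    apply Finset.sum_lt_sum_of_nonempty
    · exact ⟨a - h, by rw [Finset.mem_Ico]; omega⟩
    · intro R hR
      rw [Finset.mem_Ico] at hR
      exact hcon R hR.1 hR.2
  rw [Finset.sum_const, Nat.card_Ico, ← Finset.mul_sum, smul_eq_mul] at h2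
  have h3 : a - (a - h) = h := by omega
  rw [h3] at h2
  have h4 := Nat.mul_le_mul_left h h1
  omega

theorem large_scale {k : ℕ} (hk : 2 ≤ k) (h : 16 * Fintype.card V ≤ k * k) :
    (C.far k).card ≤ sn G C.v := by
  have hn : 0 < Fintype.card V := Fintype.card_pos_iff.2 ⟨C.v⟩
  obtain ⟨R, h1, h2, h3⟩ := C.exists_sphere (h := k / 2) (a := k) (by omega) (by omega)
  have h4 : (C.sph R).card ≤ R := by
    by_contra hcon
    push Not at hcon
    have h5 : (k / 2) * (R + 1) ≤ Fintype.card V := (Nat.mul_le_mul_left _ hcon).trans h3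
    have h6 : k ≤ 3 * (k / 2) := by omega
    have h7 : k ≤ 2 * (R + 1) := by omega
    have h8 : k * k ≤ (3 * (k / 2)) * (2 * (R + 1)) := Nat.mul_le_mul h6 h7
    have h9 : (3 * (k / 2)) * (2 * (R + 1)) = 6 * ((k / 2) * (R + 1)) := by ring
    omega
  exact (C.far_anti h2.le).trans (C.cut_sphere (by omega) h4)

/-- nodes with level in `[k, 2k)` -/
noncomputable def win (k : ℕ) : Finset V :=
  C.nodes.filter fun x => k ≤ C.F.lev x ∧ C.F.lev x < 2 * k

theorem mem_win {k : ℕ} {x : V} :
    x ∈ C.win k ↔ x ∈ C.nodes ∧ k ≤ C.F.lev x ∧ C.F.lev x < 2 * k := by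
  unfold win; exact Finset.mem_filter

theorem exists_block {k h : ℕ} (hk : k ≤ 110 * h) :
    ∃ b, (C.win k).card ≤
      110 * ((C.win k).filter fun x => (C.F.lev x - k) / h = b).card := by
  by_contra hcon
  push Not at hcon
  have h1 : (C.win k).card = ∑ b ∈ Finset.range 110,
      ((C.win k).filter fun x => (C.F.lev x - k) / h = b).card := by
    apply Finset.card_eq_sum_card_fiberwise
    intro x hx
    have hx' : x ∈ C.win k := hx
    rw [mem_win] at hx'
    rw [Finset.mem_coe, Finset.mem_range, Nat.div_lt_iff_lt_mul (by omega)]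
    omega
  have h2 : ∑ b ∈ Finset.range 110,
      110 * ((C.win k).filter fun x => (C.F.lev x - k) / h = b).card <
      ∑ _b ∈ Finset.range 110, (C.win k).card := by
    apply Finset.sum_lt_sum_of_nonempty
    · exact ⟨0, by simp⟩
    · intro b _
      exact hcon b
  rw [← Finset.mul_sum, ← h1, Finset.sum_const, Finset.card_range, smul_eq_mul] at h2
  omega

theorem medium_scale {k : ℕ} (hk : 1000 ≤ k) (hkn : k * k ≤ 16 * Fintype.card V) :
    k * k * (C.win k).card ≤ 420000 * (Fintype.card V * sn G C.v) := by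
  set n := Fintype.card V with hn
  set h := k / 100 with hh
  obtain ⟨b, hb⟩ := C.exists_block (k := k) (h := h) (by omega)
  set a := k + b * h with ha
  set Fs := (C.win k).filter fun x => (C.F.lev x - k) / h = b with hFs
  have hh1 : 1 ≤ h := by omega
  have hbl : ∀ x ∈ Fs, a ≤ C.F.lev x ∧ C.F.lev x < a + h := by
    intro x hx
    rw [hFs, Finset.mem_filter, mem_win] at hx
    obtain ⟨⟨-, h1, -⟩, h2⟩ := hx
    have h3 := Nat.div_add_mod (C.F.lev x - k) h
    have h4 := Nat.mod_lt (C.F.lev x - k) (show h > 0 by omega)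
    rw [h2, Nat.mul_comm] at h3
    omega
  obtain ⟨R, hR1, hR2, hR3⟩ := C.exists_sphere (h := h) (a := a) hh1 (by omega)
  obtain ⟨R', hR1', hR2', hR3'⟩ := C.exists_sphere (h := h) (a := a + 2 * h) hh1 (by omega)
  set U := Finset.univ.filter fun x => C.F.lev x = R ∨ C.F.lev x = R' with hU
  set W := Finset.univ.filter fun x => R < C.F.lev x ∧ C.F.lev x < R' with hW
  have hUW : Disjoint U W := by
    rw [Finset.disjoint_left]
    intro x hx hx'
    rw [hU, Finset.mem_filter] at hx
    rw [hW, Finset.mem_filter] at hx'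
    omega
  obtain ⟨i, j, i', j', hP, hc, hv⟩ := C.exists_piece hUW (k / 2)
  have hsn : C.cnt W i i' + C.cnt W j' j ≤ sn G C.v :=
    C.piece_save (by omega) (by omega) hP hc (by omega)
  have hWF : Fs.card ≤ C.cnt W 0 C.N := by
    rw [cnt, C.wtU_full]
    apply Finset.card_le_card
    intro x hx
    have h1 := hbl x hx
    rw [hFs, Finset.mem_filter, mem_win] at hx
    rw [Finset.mem_inter, hW, Finset.mem_filter]
    exact ⟨hx.1.1, Finset.mem_univ _, by omega, by omega⟩
  have hUc : C.cnt U 0 C.N ≤ (C.sph R).card + (C.sph R').card := by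
    rw [cnt, C.wtU_full]
    refine le_trans (Finset.card_le_card ?_) (Finset.card_union_le _ _)
    intro x hx
    rw [Finset.mem_inter, hU, Finset.mem_filter] at hx
    rw [Finset.mem_union, mem_sph, mem_sph]
    rcases hx.2.2 with h1 | h1
    · exact Or.inl ⟨hx.1, h1⟩
    · exact Or.inr ⟨hx.1, h1⟩
  set s := sn G C.v with hs
  -- numbers
  have e1 : (k / 2) * Fs.card ≤ (8 * C.cnt U 0 C.N + k / 2) * s :=
    (Nat.mul_le_mul_left _ hWF).trans (hv.trans (Nat.mul_le_mul_left _ hsn))
  have e2 : h * (8 * C.cnt U 0 C.N + k / 2) ≤ 17 * n := by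
    have e3 : h * (8 * C.cnt U 0 C.N) ≤ 16 * n := by
      calc h * (8 * C.cnt U 0 C.N) ≤ h * (8 * ((C.sph R).card + (C.sph R').card)) :=
            Nat.mul_le_mul_left _ (Nat.mul_le_mul_left _ hUc)
        _ = 8 * (h * (C.sph R).card) + 8 * (h * (C.sph R').card) := by ring
        _ ≤ 16 * n := by omega
    have e4 : h * (k / 2) ≤ n := by
      have e5 : 100 * h ≤ k := by omega
      have e6 : 2 * (k / 2) ≤ k := by omega
      have e7 : (100 * h) * (2 * (k / 2)) ≤ k * k := Nat.mul_le_mul e5 e6
      have e8 : (100 * h) * (2 * (k / 2)) = 200 * (h * (k / 2)) := by ring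
      omega
    rw [Nat.mul_add]
    omega
  have e3 : h * ((k / 2) * Fs.card) ≤ 17 * (n * s) := by
    calc h * ((k / 2) * Fs.card) ≤ h * ((8 * C.cnt U 0 C.N + k / 2) * s) :=
          Nat.mul_le_mul_left _ e1
      _ = (h * (8 * C.cnt U 0 C.N + k / 2)) * s := by ring
      _ ≤ (17 * n) * s := Nat.mul_le_mul_right _ e2
      _ = 17 * (n * s) := by ring
  have e4 : k * k ≤ 223 * (h * (k / 2)) := by
    have e5 : 9 * k ≤ 1000 * h := by omega
    have e6 : 999 * k ≤ 2000 * (k / 2) := by omega
    have e7 : (9 * k) * (999 * k) ≤ (1000 * h) * (2000 * (k / 2)) := Nat.mul_le_mul e5 e6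
    nlinarith
  calc k * k * (C.win k).card ≤ (223 * (h * (k / 2))) * (110 * Fs.card) := Nat.mul_le_mul e4 hb
    _ = 24530 * (h * ((k / 2) * Fs.card)) := by ring
    _ ≤ 24530 * (17 * (n * s)) := Nat.mul_le_mul_left _ e3
    _ ≤ 420000 * (n * s) := by
        have : 24530 * (17 * (n * s)) = 417010 * (n * s) := by ring
        omega

theorem all_scales {r : ℕ} (hr : 1 ≤ r) (hrn : r * r ≤ Fintype.card V)
    (hn2 : 2 ≤ Fintype.card V) :
    r * r * (C.far r).card ≤ 999999 * (Fintype.card V * sn G C.v) := by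
  set n := Fintype.card V with hn
  have hs1 : 1 ≤ sn G C.v := one_le_sn C.v hn2
  set s := sn G C.v with hs
  have hns : n ≤ n * s := Nat.le_mul_of_pos_right _ (by omega)
  -- the best scale
  obtain ⟨k, hk, hmax⟩ := Finset.exists_max_image
    ((Finset.Icc r (16 * n)).filter fun k => k * k ≤ 16 * n) (fun k => k * (C.far k).card)
    ⟨r, by
      rw [Finset.mem_filter, Finset.mem_Icc]
      refine ⟨⟨le_refl _, ?_⟩, by omega⟩
      have : r ≤ r * r := Nat.le_mul_of_pos_right _ (by omega)
      omega⟩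
  rw [Finset.mem_filter, Finset.mem_Icc] at hk
  obtain ⟨⟨hk1, hk2⟩, hk3⟩ := hk
  have hrk : r * (C.far r).card ≤ k * (C.far k).card := by
    apply hmax r
    rw [Finset.mem_filter, Finset.mem_Icc]
    refine ⟨⟨le_refl _, ?_⟩, by omega⟩
    have : r ≤ r * r := Nat.le_mul_of_pos_right _ (by omega)
    omega
  have hfn : (C.far k).card ≤ n := Finset.card_le_univ _
  have key : k * k * (C.far k).card ≤ 999999 * (n * s) := by
    rcases Nat.lt_or_ge k 1000 with hsm | hbig
    · have e1 : k * k ≤ 999 * 999 := Nat.mul_le_mul (by omega) (by omega)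
      calc k * k * (C.far k).card ≤ (999 * 999) * n := Nat.mul_le_mul e1 hfn
        _ ≤ 999999 * (n * s) := by omega
    · have hm := C.medium_scale hbig hk3
      rw [← hn, ← hs] at hm
      have h2k : (C.far k).card ≤ (C.win k).card + (C.far (2 * k)).card := by
        refine le_trans (Finset.card_le_card ?_) (Finset.card_union_le _ _)
        intro x hx
        rw [mem_far] at hx
        rw [Finset.mem_union, mem_win, mem_far]
        rcases Nat.lt_or_ge (C.F.lev x) (2 * k) with h1 | h1
        · exact Or.inl ⟨hx.1, hx.2, h1⟩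
        · exact Or.inr ⟨hx.1, h1⟩
      have h3 : (C.far k).card ≤ 2 * (C.win k).card + s := by
        by_cases hc : (2 * k) * (2 * k) ≤ 16 * n
        · have h4 : (2 * k) * (C.far (2 * k)).card ≤ k * (C.far k).card := by
            apply hmax (2 * k)
            rw [Finset.mem_filter, Finset.mem_Icc]
            refine ⟨⟨by omega, ?_⟩, hc⟩
            have : 2 * k ≤ (2 * k) * (2 * k) := Nat.le_mul_of_pos_right _ (by omega)
            omega
          have h5 : k * (2 * (C.far (2 * k)).card) ≤ k * (C.far k).card := by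
            calc k * (2 * (C.far (2 * k)).card) = (2 * k) * (C.far (2 * k)).card := by ring
              _ ≤ _ := h4
          have h6 := Nat.le_of_mul_le_mul_left h5 (by omega)
          omega
        · have h4 := C.large_scale (k := 2 * k) (by omega) (by omega)
          omega
      have e1 : k * k * (C.far k).card ≤ k * k * (2 * (C.win k).card + s) :=
        Nat.mul_le_mul_left _ h3
      have e2 : k * k * (2 * (C.win k).card + s) =
          2 * (k * k * (C.win k).card) + (k * k) * s := by ring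
      have e3 : (k * k) * s ≤ (16 * n) * s := Nat.mul_le_mul_right _ hk3
      have e4 : (16 * n) * s = 16 * (n * s) := by ring
      omega
  calc r * r * (C.far r).card = r * (r * (C.far r).card) := by ring
    _ ≤ k * (k * (C.far k).card) := Nat.mul_le_mul hk1 hrk
    _ = k * k * (C.far k).card := by ring
    _ ≤ _ := key

end Ctx

end Pool.Agent.H41.Fire
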