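import Pool.Agent.H41.Fire.Sep.BalU

/-! Splitting closed intervals; a potential argument for differences of closed intervals. -/

namespace Pool.Agent.H41.Fire

open Classical Equiv.Perm

set_option linter.unusedSectionVars false

universe u

variable {V : Type u} [Fintype V] {G : SimpleGraph V}

namespace Ctx

variable (C : Ctx G)

theorem closed_full : C.Closed 0 C.N := by
  intro d hd _ _
  exact ⟨Nat.zero_le _, C.idx_lt (C.in_symm hd)⟩

theorem closed_empty (i : ℕ) : C.Closed i i := by
  intro d hd _ h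
  omega

theorem split {i j : ℕ} (hij : i < j) (hjN : j ≤ C.N) (hcl : C.Closed i j) :
    (C.F.IsTree (C.D i) ∧ C.Closed (i + 1) j) ∨
    (¬ C.F.IsTree (C.D i) ∧ ∃ k0, i < k0 ∧ k0 < j ∧ ¬ C.F.IsTree (C.D k0) ∧
      ((k0 + 1 < j ∧ C.Closed i (k0 + 1) ∧ C.Closed (k0 + 1) j) ∨
        (k0 + 1 = j ∧ C.Closed (i + 1) k0))) := by
  have hiN : i < C.N := by omega
  by_cases hT : C.F.IsTree (C.D i)
  · left
    refine ⟨hT, ?_⟩
    intro d hd hdT hdi
    have h2 := hcl d hd hdT ⟨by omega, hdi.2⟩
    refine ⟨?_, h2.2⟩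
    have h3 : C.idx d.symm ≠ i := by
      intro h4
      apply hdT
      rw [← C.F.isTree_symm, ← C.D_idx (C.in_symm hd), h4]
      exact hT
    omega
  · right
    refine ⟨hT, ?_⟩
    set c := C.D i with hc
    have hcI : C.In c.fst := C.in_D i
    have hci : C.idx c = i := C.idx_D hiN
    set k0 := C.idx c.symm with hk0
    have hk0' : i ≤ k0 ∧ k0 < j := hcl c hcI hT ⟨by omega, by omega⟩
    have hne : k0 ≠ i := by
      intro h
      have : c.symm = c := C.idx_inj (C.in_symm hcI) hcI (by rw [← hk0, h, hci])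
      exact SimpleGraph.Dart.symm_ne c this
    have hlt : C.idx c < C.idx c.symm := by omega
    have hncp : ∀ d : G.Dart, C.In d.fst → ¬ C.F.IsTree d → (i < C.idx d ∧ C.idx d < k0) →
        (i < C.idx d.symm ∧ C.idx d.symm < k0) := by
      intro d hd hdT h1
      have hdc : d.edge ≠ c.edge := by
        intro h
        rcases (SimpleGraph.dart_edge_eq_iff d c).1 h with h | h
        · rw [h] at h1; omega
        · rw [h] at h1; omega
      have := (C.nc_pos hT hdT hdc hcI hd hlt).1 ⟨by omega, by omega⟩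
      omega
    have hcsT : ¬ C.F.IsTree c.symm := fun h => hT (C.F.isTree_symm.1 h)
    have hk0D : C.D k0 = c.symm := C.D_idx (C.in_symm hcI)
    refine ⟨k0, by omega, by omega, by rw [hk0D]; exact hcsT, ?_⟩
    by_cases hk : k0 + 1 < j
    · left
      have hcl1 : C.Closed i (k0 + 1) := by
        intro d hd hdT h1
        by_cases h2 : C.idx d = i
        · have : d = c := C.idx_inj hd hcI (by omega)
          rw [this]; omega
        · by_cases h3 : C.idx d = k0
          · have : d = c.symm := C.idx_inj hd (C.in_symm hcI) (by omega)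
            rw [this, SimpleGraph.Dart.symm_symm]; omega
          · have := hncp d hd hdT ⟨by omega, by omega⟩
            omega
      have hcl2 : C.Closed (k0 + 1) j := by
        intro d hd hdT h1
        have h2 := hcl d hd hdT ⟨by omega, by omega⟩
        refine ⟨?_, h2.2⟩
        by_contra h3
        have h4 := hcl1 d.symm (C.in_symm hd) (fun h => hdT (C.F.isTree_symm.1 h)) ⟨h2.1, by omega⟩
        rw [SimpleGraph.Dart.symm_symm] at h4
        omega
      exact ⟨hk, hcl1, hcl2⟩
    · right
      refine ⟨by omega, ?_⟩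
      intro d hd hdT h1
      have := hncp d hd hdT ⟨by omega, by omega⟩
      omega

/-- number of nodes of `U` in an interval -/
noncomputable def cnt (U : Finset V) (i j : ℕ) : ℕ := C.wtU U (fun k => i ≤ k ∧ k < j)

theorem cnt_add (U : Finset V) {i m j : ℕ} (h1 : i ≤ m) (h2 : m ≤ j) :
    C.cnt U i j = C.cnt U i m + C.cnt U m j := by
  unfold cnt wtU
  rw [← Finset.card_union_of_disjoint]
  · congr 1
    ext x
    simp only [Finset.mem_union, Finset.mem_inter, mem_sel]
    constructor
    · rintro ⟨⟨h3, h4, h5⟩, h6⟩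
      rcases Nat.lt_or_ge (C.e x) m with h7 | h7
      · exact Or.inl ⟨⟨h3, h4, h7⟩, h6⟩
      · exact Or.inr ⟨⟨h3, h7, h5⟩, h6⟩
    · rintro (⟨⟨h3, h4, h5⟩, h6⟩ | ⟨⟨h3, h4, h5⟩, h6⟩)
      · exact ⟨⟨h3, h4, by omega⟩, h6⟩
      · exact ⟨⟨h3, by omega, h5⟩, h6⟩
  · rw [Finset.disjoint_left]
    intro x hx hx'
    rw [Finset.mem_inter, mem_sel] at hx hx'
    omega

theorem cnt_self (U : Finset V) (i : ℕ) : C.cnt U i i = 0 := by
  unfold cnt
  apply C.wtU_zero
  intro x _ h
  omega

theorem cnt_chord (U : Finset V) {i : ℕ} (hi : i < C.N) (h : ¬ C.F.IsTree (C.D i)) :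
    C.cnt U i (i + 1) = 0 := by
  have h1 := C.wtU_chord (U := U) hi h
  have h2 : C.cnt U i (i + 1) ≤ C.wtU U (fun k => k = i) :=
    C.wtU_mono (fun k hk => by omega)
  omega

/-- at most one node at a position -/
theorem cnt_single {U W : Finset V} (hUW : Disjoint U W) (i : ℕ) :
    C.cnt U i (i + 1) + C.cnt W i (i + 1) ≤ 1 := by
  have h1 := C.wt_single i
  have h2 : C.cnt U i (i + 1) + C.cnt W i (i + 1) ≤ C.wt (fun k => k = i) := by
    unfold cnt wtU wt
    rw [← Finset.card_union_of_disjoint]
    · apply Finset.card_le_card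
      intro x hx
      simp only [Finset.mem_union, Finset.mem_inter, mem_sel] at hx
      rw [mem_sel]
      rcases hx with hx | hx
      · exact ⟨hx.1.1, by omega⟩
      · exact ⟨hx.1.1, by omega⟩
    · rw [Finset.disjoint_left]
      intro x hx hx'
      rw [Finset.mem_inter] at hx hx'
      exact Finset.disjoint_left.1 hUW hx.2 hx'.2
  omega

/-- a closed interval with a closed subinterval -/
def Pair (i j i' j' : ℕ) : Prop :=
  i ≤ i' ∧ i' ≤ j' ∧ j' ≤ j ∧ j ≤ C.N ∧ C.Closed i j ∧ C.Closed i' j'

/-- **Potential argument.** -/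
theorem potential {U W : Finset V} (hUW : Disjoint U W) {θ ν : ℕ}
    (hyp : ∀ i j i' j', C.Pair i j i' j' → C.cnt U i i' + C.cnt U j' j ≤ θ →
      C.cnt W i i' + C.cnt W j' j ≤ ν) :
    ∀ (l i j : ℕ), i + l = j → j ≤ C.N → C.Closed i j → θ ≤ 2 * C.cnt U i j →
      θ * C.cnt W i j + θ * ν ≤ 8 * (C.cnt U i j * ν) := by
  intro l
  induction l using Nat.strong_induction_on with
  | _ l ih =>
    intro i j hl hjN hcl hth
    have small : ∀ i j, i ≤ j → j ≤ C.N → C.Closed i j → C.cnt U i j ≤ θ → C.cnt W i j ≤ ν := by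
      intro i j h1 h2 h3 h4
      have := hyp i j j j ⟨h1, le_refl _, le_refl _, h2, h3, C.closed_empty j⟩
      rw [C.cnt_self, C.cnt_self] at this
      exact this h4
    by_cases hc : C.cnt U i j ≤ θ
    · have h1 := small i j (by omega) hjN hcl hc
      have h2 : θ * C.cnt W i j ≤ θ * ν := Nat.mul_le_mul_left _ h1
      have h3 : θ * ν ≤ (2 * C.cnt U i j) * ν := Nat.mul_le_mul_right _ hth
      have h4 : (2 * C.cnt U i j) * ν = 2 * (C.cnt U i j * ν) := by ring
      omega
    · push Not at hc
      have hex : ∃ l', ∃ i' j', i' + l' = j' ∧ C.Pair i j i' j' ∧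
          C.cnt U i i' + C.cnt U j' j ≤ θ := by
        refine ⟨l, i, j, hl, ⟨le_refl _, by omega, le_refl _, hjN, hcl, hcl⟩, ?_⟩
        rw [C.cnt_self, C.cnt_self]
        omega
      obtain ⟨i', j', hl', hP, hcost⟩ := Nat.find_spec hex
      set l' := Nat.find hex with hl'def
      have hmin : ∀ a b, a ≤ b → b - a < l' → C.Pair i j a b →
          θ < C.cnt U i a + C.cnt U b j := by
        intro a b h1 h2 h3
        by_contra h4
        exact Nat.find_min hex h2 ⟨a, b, by omega, h3, by omega⟩
      obtain ⟨p1, p2, p3, p4, p5, p6⟩ := hP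
      have hvol := hyp i j i' j' ⟨p1, p2, p3, p4, p5, p6⟩ hcost
      have hcij : C.cnt U i j = C.cnt U i i' + C.cnt U i' j' + C.cnt U j' j := by
        rw [C.cnt_add U (show i ≤ i' by omega) (show i' ≤ j by omega),
          C.cnt_add U (show i' ≤ j' by omega) (show j' ≤ j by omega)]
        omega
      have hvij : C.cnt W i j = C.cnt W i i' + C.cnt W i' j' + C.cnt W j' j := by
        rw [C.cnt_add W (show i ≤ i' by omega) (show i' ≤ j by omega),
          C.cnt_add W (show i' ≤ j' by omega) (show j' ≤ j by omega)]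
        omega
      have hlt : i' < j' := by
        rcases Nat.lt_or_ge i' j' with h | h
        · exact h
        · exfalso
          have : i' = j' := by omega
          rw [this, C.cnt_self] at hcij
          rw [this] at hcost
          omega
      have hj'N : j' ≤ C.N := by omega
      rcases C.split hlt hj'N p6 with ⟨hT, hcl1⟩ | ⟨hT, k0, hk1, hk2, hkT, hsp⟩
      · -- one node removed
        have h1 := hmin (i' + 1) j' (by omega) (by omega)
          ⟨by omega, by omega, p3, p4, p5, hcl1⟩
        have h2 := C.cnt_add U (show i ≤ i' by omega) (show i' ≤ i' + 1 by omega)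
        have h3 := C.cnt_single hUW i'
        have h4 := C.cnt_add U (show i' ≤ i' + 1 by omega) (show i' + 1 ≤ j' by omega)
        have h5 := C.cnt_add W (show i' ≤ i' + 1 by omega) (show i' + 1 ≤ j' by omega)
        have hv1 : C.cnt W i j ≤ ν + C.cnt W (i' + 1) j' := by omega
        have hc1 : C.cnt U i j = θ + 1 + C.cnt U (i' + 1) j' := by omega
        have hmul : θ * C.cnt W i j ≤ θ * ν + θ * C.cnt W (i' + 1) j' := by
          rw [← Nat.mul_add]; exact Nat.mul_le_mul_left _ hv1
        have hcm : C.cnt U i j * ν = θ * ν + ν + C.cnt U (i' + 1) j' * ν := by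
          rw [hc1]; ring
        by_cases hbig : θ ≤ 2 * C.cnt U (i' + 1) j'
        · have h6 := ih (j' - (i' + 1)) (by omega) (i' + 1) j' (by omega) hj'N hcl1 hbig
          omega
        · have h6 := small (i' + 1) j' (by omega) hj'N hcl1 (by omega)
          have h7 : θ * C.cnt W (i' + 1) j' ≤ θ * ν := Nat.mul_le_mul_left _ h6
          omega
      · rcases hsp with ⟨hk3, hcl1, hcl2⟩ | ⟨hk3, hcl1⟩
        · -- two intervals
          have h1 := hmin i' (k0 + 1) (by omega) (by omega)
            ⟨p1, by omega, by omega, p4, p5, hcl1⟩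
          have h2 := hmin (k0 + 1) j' (by omega) (by omega)
            ⟨by omega, by omega, p3, p4, p5, hcl2⟩
          have h3 := C.cnt_add U (show k0 + 1 ≤ j' by omega) (show j' ≤ j by omega)
          have h4 := C.cnt_add U (show i ≤ i' by omega) (show i' ≤ k0 + 1 by omega)
          have h5 := C.cnt_add U (show i' ≤ k0 + 1 by omega) (show k0 + 1 ≤ j' by omega)
          have h6 := C.cnt_add W (show i' ≤ k0 + 1 by omega) (show k0 + 1 ≤ j' by omega)
          set c1 := C.cnt U i' (k0 + 1) with hc1
          set c2 := C.cnt U (k0 + 1) j' with hc2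
          set v1 := C.cnt W i' (k0 + 1) with hv1
          set v2 := C.cnt W (k0 + 1) j' with hv2
          set c0 := C.cnt U i i' + C.cnt U j' j with hc0
          have hcc : C.cnt U i j = c0 + c1 + c2 := by omega
          have hvv : C.cnt W i j ≤ ν + v1 + v2 := by omega
          have hmul : θ * C.cnt W i j ≤ θ * ν + θ * v1 + θ * v2 := by
            rw [← Nat.mul_add, ← Nat.mul_add]; exact Nat.mul_le_mul_left _ hvv
          have hcm : C.cnt U i j * ν = c0 * ν + c1 * ν + c2 * ν := by
            rw [hcc]; ring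
          have g1 : θ ≤ c0 + c2 := by omega
          have g2 : θ ≤ c0 + c1 := by omega
          have g1' : θ * ν ≤ c0 * ν + c2 * ν := by
            rw [← Nat.add_mul]; exact Nat.mul_le_mul_right _ g1
          have g2' : θ * ν ≤ c0 * ν + c1 * ν := by
            rw [← Nat.add_mul]; exact Nat.mul_le_mul_right _ g2
          by_cases hb1 : θ ≤ 2 * c1
          · have k1 := ih (k0 + 1 - i') (by omega) i' (k0 + 1) (by omega) (by omega) hcl1 hb1
            rw [← hc1, ← hv1] at k1
            by_cases hb2 : θ ≤ 2 * c2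
            · have k2 := ih (j' - (k0 + 1)) (by omega) (k0 + 1) j' (by omega) hj'N hcl2 hb2
              rw [← hc2, ← hv2] at k2
              omega
            · have k2 := small (k0 + 1) j' (by omega) hj'N hcl2 (by omega)
              have k3 : θ * v2 ≤ θ * ν := Nat.mul_le_mul_left _ k2
              omega
          · have k1 := small i' (k0 + 1) (by omega) (by omega) hcl1 (by omega)
            have k3 : θ * v1 ≤ θ * ν := Nat.mul_le_mul_left _ k1
            by_cases hb2 : θ ≤ 2 * c2
            · have k2 := ih (j' - (k0 + 1)) (by omega) (k0 + 1) j' (by omega) hj'N hcl2 hb2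
              rw [← hc2, ← hv2] at k2
              omega
            · have k2 := small (k0 + 1) j' (by omega) hj'N hcl2 (by omega)
              have k4 : θ * v2 ≤ θ * ν := Nat.mul_le_mul_left _ k2
              omega
        · -- a chord joins the two ends
          exfalso
          have h1 := hmin (i' + 1) k0 (by omega) (by omega)
            ⟨by omega, by omega, by omega, p4, p5, hcl1⟩
          have h2 := C.cnt_add U (show i ≤ i' by omega) (show i' ≤ i' + 1 by omega)
          have h3 := C.cnt_chord U (i := i') (by omega) hT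
          have h4 := C.cnt_add U (show k0 ≤ k0 + 1 by omega) (show k0 + 1 ≤ j by omega)
          have h5 := C.cnt_chord U (i := k0) (by omega) hkT
          rw [hk3] at h4 h5
          omega

/-- A difference of closed intervals with few `U`-nodes and many `W`-nodes. -/
theorem exists_piece {U W : Finset V} (hUW : Disjoint U W) (θ : ℕ) :
    ∃ i j i' j', C.Pair i j i' j' ∧ C.cnt U i i' + C.cnt U j' j ≤ θ ∧
      θ * C.cnt W 0 C.N ≤ (8 * C.cnt U 0 C.N + θ) * (C.cnt W i i' + C.cnt W j' j) := by
  set P : Finset (ℕ × ℕ × ℕ × ℕ) :=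
    ((Finset.range (C.N + 1)) ×ˢ (Finset.range (C.N + 1)) ×ˢ (Finset.range (C.N + 1)) ×ˢ
      (Finset.range (C.N + 1))).filter fun q => C.Pair q.1 q.2.1 q.2.2.1 q.2.2.2 ∧
        C.cnt U q.1 q.2.2.1 + C.cnt U q.2.2.2 q.2.1 ≤ θ with hP
  have hmem : ∀ i j i' j', (i, j, i', j') ∈ P ↔ C.Pair i j i' j' ∧
      C.cnt U i i' + C.cnt U j' j ≤ θ := by
    intro i j i' j'
    rw [hP, Finset.mem_filter]
    constructor
    · exact fun h => h.2
    · intro h
      refine ⟨?_, h⟩
      obtain ⟨p1, p2, p3, p4, -, -⟩ := h.1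
      simp only [Finset.mem_product, Finset.mem_range]
      omega
  have hne : P.Nonempty := ⟨(0, 0, 0, 0), (hmem _ _ _ _).2 ⟨⟨le_refl _, le_refl _, le_refl _,
    Nat.zero_le _, C.closed_empty 0, C.closed_empty 0⟩, by rw [C.cnt_self]; omega⟩⟩
  obtain ⟨⟨i, j, i', j'⟩, hq, hmax⟩ := Finset.exists_max_image P
    (fun q => C.cnt W q.1 q.2.2.1 + C.cnt W q.2.2.2 q.2.1) hne
  rw [hmem] at hq
  refine ⟨i, j, i', j', hq.1, hq.2, ?_⟩
  set ν := C.cnt W i i' + C.cnt W j' j with hν
  have hyp : ∀ a b a' b', C.Pair a b a' b' → C.cnt U a a' + C.cnt U b' b ≤ θ →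
      C.cnt W a a' + C.cnt W b' b ≤ ν := by
    intro a b a' b' h1 h2
    exact hmax (a, b, a', b') ((hmem _ _ _ _).2 ⟨h1, h2⟩)
  have hexp : (8 * C.cnt U 0 C.N + θ) * ν = 8 * (C.cnt U 0 C.N * ν) + θ * ν := by ring
  by_cases hth : θ ≤ 2 * C.cnt U 0 C.N
  · have h1 := C.potential hUW hyp C.N 0 C.N (by omega) (le_refl _) C.closed_full hth
    omega
  · have h1 := hyp 0 C.N C.N C.N ⟨Nat.zero_le _, le_refl _, le_refl _, le_refl _, C.closed_full,
      C.closed_empty _⟩
    rw [C.cnt_self, C.cnt_self] at h1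
    have h2 := h1 (by omega)
    have h3 : θ * C.cnt W 0 C.N ≤ θ * ν := Nat.mul_le_mul_left _ (by omega)
    omega

end Ctx

end Pool.Agent.H41.Fire
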